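import Pool.Agent.helper61.DP.SpecC
import Pool.Agent.helper61.DP.Base

/-!
# Project dp: four crossings contain a loop
-/

namespace DP

/-- colouring which is `k` exactly on `W` -/
theorem RLP_col {W : Set V} {k : Bool} :
    ∃ c : V → Bool, ∀ z, c z = k ↔ z ∈ W := by
  classical
  refine ⟨fun z => if z ∈ W then k else !k, fun z => ?_⟩
  by_cases h : z ∈ W
  · simp [h]
  · simp [h]

theorem RLP_meet (hRHM : RHM_stmt) (hRC : RC_stmt) {W W' : Set V} {a b d e a' b' d' e' : ℤ}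
    {u v u' v' : V} (hW : W ⊆ rect a b d e) (hW' : W' ⊆ rect a' b' d' e') (h : Con W u v)
    (h' : Con W' u' v') (hu : u.1 = a) (hv : v.1 = b) (hu' : u'.2 = d') (hv' : v'.2 = e')
    (h1 : a ≤ a') (h2 : a' ≤ b') (h3 : b' ≤ b) (h4 : d' ≤ d) (h5 : d ≤ e) (h6 : e ≤ e') :
    (W ∩ W').Nonempty := by
  obtain ⟨c, hc⟩ := RLP_col (W := W) (k := true)
  obtain ⟨c', hc'⟩ := RLP_col (W := W') (k := true)
  have e1 : hcross c true a b d e := by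
    refine ⟨u, v, hu, hv, ?_⟩
    exact Con.mono (W' := {w | w ∈ rect a b d e ∧ c w = true})
      (fun z hz => ⟨hW hz, (hc z).2 hz⟩) h
  have e2 : vcross c' true a' b' d' e' := by
    refine ⟨u', v', hu', hv', ?_⟩
    exact Con.mono (W' := {w | w ∈ rect a' b' d' e' ∧ c' w = true})
      (fun z hz => ⟨hW' hz, (hc' z).2 hz⟩) h'
  obtain ⟨p, q, hp, hq, hpq⟩ := hRHM.1 c true a b d e a' b' d e h1 h2 h3 le_rfl le_rfl e1
  obtain ⟨p', q', hp', hq', hpq'⟩ := hRHM.2 c' true a' b' d' e' a' b' d e le_rfl le_rfl h4 h5 h6 e2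
  obtain ⟨z, hz, hz'⟩ := hRC a' b' d e {w | w ∈ rect a' b' d e ∧ c w = true}
    {w | w ∈ rect a' b' d e ∧ c' w = true} (fun w hw => hw.1) (fun w hw => hw.1) p q p' q'
    hp hq hp' hq' hpq hpq'
  exact ⟨z, (hc z).1 hz.2, (hc' z).1 hz'.2⟩

theorem RLP (hRHM : RHM_stmt) (hRC : RC_stmt) (hRWP : RWP_stmt) : RLP_stmt := by
  intro c k g ℓ hℓ hT hB hR hL
  obtain ⟨uT, vT, huT, hvT, cT⟩ := hT
  obtain ⟨uB, vB, huB, hvB, cB⟩ := hB
  obtain ⟨uR, vR, huR, hvR, cR⟩ := hR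
  obtain ⟨uL, vL, huL, hvL, cL⟩ := hL
  set AT := rect (g.1 - 3 * ℓ + 1) (g.1 + 3 * ℓ - 1) (g.2 + ℓ + 1) (g.2 + 3 * ℓ - 1) with hAT
  set AB := rect (g.1 - 3 * ℓ + 1) (g.1 + 3 * ℓ - 1) (g.2 - 3 * ℓ + 1) (g.2 - ℓ - 1) with hAB
  set AR := rect (g.1 + ℓ + 1) (g.1 + 3 * ℓ - 1) (g.2 - 3 * ℓ + 1) (g.2 + 3 * ℓ - 1) with hAR
  set AL := rect (g.1 - 3 * ℓ + 1) (g.1 - ℓ - 1) (g.2 - 3 * ℓ + 1) (g.2 + 3 * ℓ - 1) with hAL
  have sub : ∀ (A : Set V) (u : V), {z | Conn c k A u z} ⊆ A := fun A u z hz => hz.mem_right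
  have clT : Con {z | Conn c k AT uT z} uT vT := Con.cluster cT
  have clB : Con {z | Conn c k AB uB z} uB vB := Con.cluster cB
  have clR : Con {z | Conn c k AR uR z} uR vR := Con.cluster cR
  have clL : Con {z | Conn c k AL uL z} uL vL := Con.cluster cL
  have hℓ' : (1 : ℤ) ≤ ℓ := by exact_mod_cast hℓ
  obtain ⟨z1, h1T, h1L⟩ := RLP_meet hRHM hRC (sub AT uT) (sub AL uL) clT clL huT hvT huL hvL
    (by omega) (by omega) (by omega) (by omega) (by omega) (by omega)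
  obtain ⟨z2, h2T, h2R⟩ := RLP_meet hRHM hRC (sub AT uT) (sub AR uR) clT clR huT hvT huR hvR
    (by omega) (by omega) (by omega) (by omega) (by omega) (by omega)
  obtain ⟨z3, h3B, h3R⟩ := RLP_meet hRHM hRC (sub AB uB) (sub AR uR) clB clR huB hvB huR hvR
    (by omega) (by omega) (by omega) (by omega) (by omega) (by omega)
  obtain ⟨z4, h4B, h4L⟩ := RLP_meet hRHM hRC (sub AB uB) (sub AL uL) clB clL huB hvB huL hvL
    (by omega) (by omega) (by omega) (by omega) (by omega) (by omega)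
  have c12 : Conn c k AT z1 z2 := h1T.symm.trans h2T
  have c23 : Conn c k AR z2 z3 := h2R.symm.trans h3R
  have c34 : Conn c k AB z3 z4 := h3B.symm.trans h4B
  have c41 : Conn c k AL z4 z1 := h4L.symm.trans h1L
  obtain ⟨l1, p1⟩ := Con.exists_path' c12
  obtain ⟨l2, p2⟩ := Con.exists_path' c23
  obtain ⟨l3, p3⟩ := Con.exists_path' c34
  obtain ⟨l4, p4⟩ := Con.exists_path' c41
  have hz1 : z1.1 ≤ g.1 := by
    have := h1L.mem_right.2.1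
    omega
  have hz2 : ¬ z2.1 ≤ g.1 := by
    have := h2R.mem_right.1
    omega
  obtain ⟨w1, w2, w3⟩ := hRWP
  have o1 : (upCross g l1 + i01 (z1.1 ≤ g.1) + i01 (z2.1 ≤ g.1)) % 2 = 0 :=
    w1 l1 g z1 z2 p1.1 p1.2.1 p1.2.2.1 fun w hw => by
      have := (p1.2.2.2 w hw).1.2.2.1
      omega
  have o2 : upCross g l2 = 0 := w2 l2 g fun w hw => by
    have := (p2.2.2.2 w hw).1.1
    omega
  have o3 : upCross g l3 = 0 := w2 l3 g fun w hw => by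
    have := (p3.2.2.2 w hw).1.2.2.2
    omega
  have o4 : upCross g l4 = 0 := w2 l4 g fun w hw => by
    have := (p4.2.2.2 w hw).1.2.1
    omega
  set W : Set V := {v | ℓ < sd g v ∧ sd g v < 3 * ℓ ∧ c v = k} with hW
  have q1 : IsPath W l1 z1 z2 := p1.mono fun w hw => by
    obtain ⟨⟨a1, a2, a3, a4⟩, a5⟩ := hw
    refine ⟨?_, ?_, a5⟩ <;> (unfold sd; omega)
  have q2 : IsPath W l2 z2 z3 := p2.mono fun w hw => by
    obtain ⟨⟨a1, a2, a3, a4⟩, a5⟩ := hw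
    refine ⟨?_, ?_, a5⟩ <;> (unfold sd; omega)
  have q3 : IsPath W l3 z3 z4 := p3.mono fun w hw => by
    obtain ⟨⟨a1, a2, a3, a4⟩, a5⟩ := hw
    refine ⟨?_, ?_, a5⟩ <;> (unfold sd; omega)
  have q4 : IsPath W l4 z4 z1 := p4.mono fun w hw => by
    obtain ⟨⟨a1, a2, a3, a4⟩, a5⟩ := hw
    refine ⟨?_, ?_, a5⟩ <;> (unfold sd; omega)
  obtain ⟨r1, s1⟩ := w3 W l1 l2 g z1 z2 z3 q1 q2
  obtain ⟨r2, s2⟩ := w3 W _ l3 g z1 z3 z4 r1 q3
  obtain ⟨r3, s3⟩ := w3 W _ l4 g z1 z4 z1 r2 q4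
  refine ⟨_, _, z1, r3, ?_, rfl⟩
  rw [s3, s2, s1, o2, o3, o4]
  have e1 : i01 (z1.1 ≤ g.1) = 1 := by simp [i01, hz1]
  have e2 : i01 (z2.1 ≤ g.1) = 0 := by simp [i01, hz2]
  rw [e1, e2] at o1
  rw [Nat.odd_iff]
  omega

end DP
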