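import Pool.Agent.helper3.DP.SpecG1

/-!
# Project dp: a revealed block is reached by a black path from the left side
-/

namespace DP

theorem F3V_first {f : ℕ → Finset V} {w : V} (h0 : w ∉ f 0) : ∀ n, w ∈ f n →
    ∃ k, w ∉ f k ∧ w ∈ f (k + 1) := by
  intro n
  induction n with
  | zero => intro h; exact absurd h h0
  | succ n ih =>
    intro h
    by_cases h1 : w ∈ f n
    · exact ih h1
    · exact ⟨n, h1, h⟩

theorem F3V (hB : GBP_stmt) : F3V_stmt := by
  classical
  intro N m K i t hm hK hKt ht hi1 hi2 b hsub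
  obtain ⟨g1, g2, g3, g4, g5⟩ := hB N m K hm hK (by omega)
  obtain ⟨w0, hw0⟩ := (g1 i hi2).1
  have h0 : w0 ∉ run (fnext N m K) b 0 := by
    show w0 ∉ (∅ : Finset V)
    simp
  obtain ⟨n, hn1, hn2⟩ := F3V_first h0 _ (hsub hw0)
  have hn3 : w0 ∈ fnext N m K (run (fnext N m K) b n) b := by
    have h1 : w0 ∈ run (fnext N m K) b n ∪ fnext N m K (run (fnext N m K) b n) b := hn2
    rcases Finset.mem_union.1 h1 with h2 | h2
    · exact absurd h2 hn1
    · exact h2
  set X := run (fnext N m K) b n with hX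
  unfold fnext at hn3
  split_ifs at hn3 with c1 c2
  · exact absurd ((g4 i hi1 hi2).1 hw0) (Finset.disjoint_left.1 g5 hn3)
  · have hspec := Nat.find_spec c2
    set j := Nat.find c2 with hj
    obtain ⟨hj1, hj2, -, w, hw, v, u, hvw, hu, hc⟩ := hspec
    have hji : j = i := by
      by_contra hne
      exact Finset.disjoint_left.1 (g2 j hj2 i hi2 hne) hn3 hw0
    rw [hji] at hw
    have hw2 : sd (bce m K i) w ≤ m := (g4 i hi1 hi2).2 hw
    refine ⟨v, u, ?_, ?_, ?_⟩
    · have h3 : sd v w = 1 := hvw.1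
      unfold sd at hw2 h3 ⊢
      omega
    · have h4 : ((bce m K i).1 : ℤ) ≥ -(K * m : ℤ) + m := by
        have h5 : (0 : ℤ) ≤ 2 * m * ((i - 1) % K : ℕ) := by positivity
        show -(K * m : ℤ) + 2 * m * ((i - 1) % K : ℕ) + m ≥ _
        linarith
      have h6 : ((K * m + t : ℕ) : ℤ) ≤ (4 * N : ℕ) := by exact_mod_cast hKt
      push_cast at h6
      unfold sd
      rw [hu]
      generalize (bce m K i).1 = z at h4 ⊢
      generalize (K : ℤ) * m = y at h4 h6
      omega
    · exact ⟨⟨Set.mem_univ _, hc.1.2⟩, Relation.ReflTransGen.mono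
        (fun a c h => ⟨h.1, Set.mem_univ _, h.2.2⟩) _ _ hc.2⟩
  · simp at hn3

end DP
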