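import Pool.Agent.helper3.DP.SpecG2
import Pool.Agent.helper29.DP.SUB

/-!
# GBB: facts about the two arm probabilities
-/

namespace DP

open MeasureTheory

/-- The two arm probability as a value of `Q` without noise. -/
theorem GBB_Q (hZ : Bzero_stmt) (x : V) (m n : ℕ) :
    Q (fun _ => 0) (Ev fun c => ar 2 c x m n) (Ev fun c => ar 2 c x m n) =
      Pr (Ev fun c => two c x m n) := by
  rw [hZ (fun _ => 0) _ _ _ (SUB_loc 2 x m n) (SUB_loc 2 x m n) (fun _ _ => rfl), Set.inter_self]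
  rfl

theorem GBB_nonneg (F : Set (V → Bool)) : 0 ≤ Pr F := by
  unfold Pr
  exact measureReal_nonneg

theorem GBB_mono (hZ : Bzero_stmt) (hM : Bmono_stmt) (hAM : AM_stmt) (x : V) (m n n' : ℕ)
    (h1 : m ≤ n) (h2 : n ≤ n') :
    Pr (Ev fun c => two c x m n') ≤ Pr (Ev fun c => two c x m n) := by
  rw [← GBB_Q hZ, ← GBB_Q hZ]
  have hs : (Ev fun c => ar 2 c x m n') ⊆ (Ev fun c => ar 2 c x m n) := fun b hb =>
    hAM (col b) 2 x m m n n' (Or.inl rfl) le_rfl h1 h2 hb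
  exact hM _ _ _ _ _ hs hs

theorem GBB (hQM : QM_stmt) (hEXT : EXT_stmt) (hSUB : SUB_stmt) (hAM : AM_stmt)
    (hZ : Bzero_stmt) (hM : Bmono_stmt) : GBB_stmt := by
  obtain ⟨c₂, hc₂, i₁, hq⟩ := hQM
  obtain ⟨c₃, hc₃, i₂, he⟩ := hEXT
  have hP : Profile (fun _ => 0) := fun _ => ⟨le_rfl, zero_le_one⟩
  refine ⟨min c₃ (c₂ * c₃), lt_min hc₃ (mul_pos hc₂ hc₃), max i₁ i₂, ?_⟩
  intro x k₀ i hx1 hx2 hk hi
  have hx : Even (x.1 + x.2) := hx1.add hx2
  have hk1 : i₁ ≤ k₀ := le_trans (le_max_left _ _) hk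
  have hk2 : i₂ ≤ k₀ := le_trans (le_max_right _ _) hk
  have he1 : ∀ b, k₀ < b → c₃ * bb x k₀ b ≤ bb x k₀ (b + 1) := by
    intro b hb
    have h := (he 2 (fun _ => 0) x k₀ b (Or.inl rfl) hP hx hk2 hb).1
    rw [GBB_Q hZ, GBB_Q hZ] at h
    exact h
  have he3 : c₃ ≤ bb x k₀ (k₀ + 1) := by
    have h := (he 2 (fun _ => 0) x k₀ (k₀ + 1) (Or.inl rfl) hP hx hk2 (Nat.lt_succ_self _)).2.2
    rw [GBB_Q hZ] at h
    exact h
  have hpos : ∀ b, k₀ + 1 ≤ b → 0 < bb x k₀ b := by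
    intro b hb
    induction b, hb using Nat.le_induction with
    | base => linarith
    | succ b hb ih => exact lt_of_lt_of_le (mul_pos hc₃ ih) (he1 b (by omega))
  have hposi := hpos i hi
  refine ⟨hposi, ?_, ?_, ?_⟩
  · exact GBB_mono hZ hM hAM x _ _ _ (Nat.pow_le_pow_right (by norm_num) hi.le)
      (Nat.pow_le_pow_right (by norm_num) (Nat.le_succ i))
  · exact le_trans (mul_le_mul_of_nonneg_right (min_le_left _ _) hposi.le) (he1 i hi)
  · intro L hL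
    constructor
    · have h := hq 2 (fun _ => 0) x k₀ (i + 1) L (Or.inl rfl) hP hx hk1 (by omega) hL
      rw [GBB_Q hZ, GBB_Q hZ, GBB_Q hZ] at h
      have h2 := he1 i hi
      have h3 : 0 ≤ Pr (Ev fun c => two c x (2 ^ (i + 1)) (2 ^ L)) := GBB_nonneg _
      calc min c₃ (c₂ * c₃) * (bb x k₀ i * Pr (Ev fun c => two c x (2 ^ (i + 1)) (2 ^ L)))
          ≤ (c₂ * c₃) * (bb x k₀ i * Pr (Ev fun c => two c x (2 ^ (i + 1)) (2 ^ L))) :=
            mul_le_mul_of_nonneg_right (min_le_right _ _) (mul_nonneg hposi.le h3)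
        _ = c₂ * ((c₃ * bb x k₀ i) * Pr (Ev fun c => two c x (2 ^ (i + 1)) (2 ^ L))) := by ring
        _ ≤ c₂ * (bb x k₀ (i + 1) * Pr (Ev fun c => two c x (2 ^ (i + 1)) (2 ^ L))) :=
            mul_le_mul_of_nonneg_left (mul_le_mul_of_nonneg_right h2 h3) hc₂.le
        _ ≤ bb x k₀ L := h
    · intro hL5
      have h := hSUB 2 (fun _ => 0) x (2 ^ k₀) (2 ^ i) (2 ^ (i + 5)) (2 ^ L) (Or.inl rfl)
        (Nat.pow_le_pow_right (by norm_num) hi.le)
        (Nat.pow_lt_pow_right (by norm_num) (by omega))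
        (Nat.pow_le_pow_right (by norm_num) hL5.le)
      rw [GBB_Q hZ, GBB_Q hZ, GBB_Q hZ] at h
      exact h

end DP
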