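import Pool.Agent.helper95.DP.SpecH

/-!
# HSI: the sites of the fine grid which represent the edges of the square lattice
-/

namespace DP

/-- Arithmetic of an edge. -/
theorem HSI_adj (u v : ℤ × ℤ) (h : |u.1 - v.1| + |u.2 - v.2| = 1) :
    (u.1 = v.1 ∧ (u.2 = v.2 + 1 ∨ v.2 = u.2 + 1)) ∨ (u.2 = v.2 ∧ (u.1 = v.1 + 1 ∨ v.1 = u.1 + 1)) := by
  rcases abs_cases (u.1 - v.1) with h1 | h1 <;> rcases abs_cases (u.2 - v.2) with h2 | h2 <;> omega

theorem HSI : HSI_stmt := by
  refine ⟨?_, ?_⟩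
  · rintro ⟨e, he⟩ ⟨f, hf⟩ h
    induction e using Sym2.ind with
    | _ u v =>
      induction f using Sym2.ind with
      | _ u' v' =>
        have h1 := HSI_adj u v ((SimpleGraph.mem_edgeSet DynPerc.Z2).1 he)
        have h2 := HSI_adj u' v' ((SimpleGraph.mem_edgeSet DynPerc.Z2).1 hf)
        have h3 : u + v = u' + v' := h
        have h4 : u.1 + v.1 = u'.1 + v'.1 := congrArg Prod.fst h3
        have h5 : u.2 + v.2 = u'.2 + v'.2 := congrArg Prod.snd h3
        have h6 : (u.1 = u'.1 ∧ u.2 = u'.2 ∧ v.1 = v'.1 ∧ v.2 = v'.2) ∨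
            (u.1 = v'.1 ∧ u.2 = v'.2 ∧ v.1 = u'.1 ∧ v.2 = u'.2) := by omega
        apply Subtype.ext
        show s(u, v) = s(u', v')
        rcases h6 with ⟨a, b, c, d⟩ | ⟨a, b, c, d⟩
        · rw [show u = u' from Prod.ext a b, show v = v' from Prod.ext c d]
        · rw [show u = v' from Prod.ext a b, show v = u' from Prod.ext c d, Sym2.eq_swap]
  · intro w
    constructor
    · rintro ⟨⟨e, he⟩, h⟩
      induction e using Sym2.ind with
      | _ u v =>
        have h1 := HSI_adj u v ((SimpleGraph.mem_edgeSet DynPerc.Z2).1 he)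
        have h3 : u + v = w := h
        have h4 : u.1 + v.1 = w.1 := congrArg Prod.fst h3
        have h5 : u.2 + v.2 = w.2 := congrArg Prod.snd h3
        rw [Int.even_iff]
        omega
    · intro h
      rw [Int.even_iff] at h
      by_cases h0 : w.1 % 2 = 0
      · refine ⟨⟨s((w.1 / 2, w.2 / 2), (w.1 / 2, w.2 / 2 + 1)), ?_⟩, ?_⟩
        · rw [SimpleGraph.mem_edgeSet]
          show |w.1 / 2 - w.1 / 2| + |w.2 / 2 - (w.2 / 2 + 1)| = 1
          simp
        · show ((w.1 / 2, w.2 / 2) : ℤ × ℤ) + (w.1 / 2, w.2 / 2 + 1) = w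
          apply Prod.ext
          · show w.1 / 2 + w.1 / 2 = w.1
            omega
          · show w.2 / 2 + (w.2 / 2 + 1) = w.2
            omega
      · refine ⟨⟨s((w.1 / 2, w.2 / 2), (w.1 / 2 + 1, w.2 / 2)), ?_⟩, ?_⟩
        · rw [SimpleGraph.mem_edgeSet]
          show |w.1 / 2 - (w.1 / 2 + 1)| + |w.2 / 2 - w.2 / 2| = 1
          simp
        · show ((w.1 / 2, w.2 / 2) : ℤ × ℤ) + (w.1 / 2 + 1, w.2 / 2) = w
          apply Prod.ext
          · show w.1 / 2 + (w.1 / 2 + 1) = w.1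
            omega
          · show w.2 / 2 + w.2 / 2 = w.2
            omega

end DP
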